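import Mathlib
import Pool.Agent.Helper572.PowProdMain
import Pool.Agent.Helper572.PAdicMain

set_option autoImplicit false

namespace Pool.Agent.Results.MP_5dc4fa_al.DivisibleCommutators

/-- `pow x n` is the `(n + 1)`-st power `x * x * ... * x` (with `n + 1` factors) in a ring
that need not have an identity element. -/
def pow {R : Type} [NonUnitalRing R] (x : R) (n : ℕ) : R := (fun z : R => z * x)^[n] x

/-- A two-sided ideal is nil if each of its elements is nilpotent. -/
def IsNil {R : Type} [NonUnitalRing R] (I : TwoSidedIdeal R) : Prop :=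
  ∀ x ∈ I, ∃ n : ℕ, pow x n = 0

/-- The zero ideal is the only nil two-sided ideal. -/
def HasNoNilIdeals (R : Type) [NonUnitalRing R] : Prop :=
  ∀ I : TwoSidedIdeal R, IsNil I → I = ⊥

/-- Condition (P): for all `x, y` there is an exponent `n + 1 ≥ 2` with
`(x y) ^ (n + 1) = x ^ (n + 1) y ^ (n + 1)`. -/
def ConditionP (R : Type) [NonUnitalRing R] : Prop :=
  ∀ x y : R, ∃ n : ℕ, 1 ≤ n ∧ pow (x * y) n = pow x n * pow y n

/-- The additive group of `R` is torsion-free. -/
def TorsionFree (R : Type) [NonUnitalRing R] : Prop :=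
  ∀ (n : ℤ) (x : R), n ≠ 0 → n • x = 0 → x = 0

theorem pow_eq {R : Type} [Ring R] (x : R) (n : ℕ) : pow x n = x ^ (n + 1) := by
  unfold pow
  induction n with
  | zero => simp
  | succ n ih => rw [Function.iterate_succ_apply', ih, ← pow_succ]

theorem condP {R : Type} [Ring R] (h : ConditionP R) :
    ∀ x y : R, ∃ n : ℕ, 2 ≤ n ∧ (x * y) ^ n = x ^ n * y ^ n := by
  intro x y
  obtain ⟨n, hn, h⟩ := h x y
  rw [pow_eq, pow_eq, pow_eq] at h
  exact ⟨n + 1, by omega, h⟩

/-- (1) Algebras (not necessarily unital) over uncountable fields without nonzero nil ideals that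
satisfy (P) are commutative.
(2) In every ring with identity with torsion-free additive group that satisfies (P), each
commutator `a b - b a` is divisible by every positive integer in the subring generated by `1, a, b`.
(3) A ring with identity with torsion-free additive group without nonzero infinitely divisible
elements is commutative if it satisfies (P).
(4) If a ring with identity satisfies (P), each ring homomorphism from it to a matrix ring over a
commutative domain of characteristic zero has a commutative image. -/
theorem result :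
    (∀ (F : Type) [Field F] [Uncountable F] (R : Type) [NonUnitalRing R] [Module F R]
      [IsScalarTower F R R] [SMulCommClass F R R], HasNoNilIdeals R → ConditionP R →
      ∀ x y : R, x * y = y * x) ∧
    (∀ (R : Type) [Ring R], TorsionFree R → ConditionP R → ∀ a b : R, ∀ n : ℕ, 1 ≤ n →
      ∃ t ∈ Subring.closure ({a, b} : Set R), a * b - b * a = n • t) ∧
    (∀ (R : Type) [Ring R], TorsionFree R → (∀ r : R, (∀ n : ℕ, 1 ≤ n → ∃ t : R, r = n • t) → r = 0) →
      ConditionP R → ∀ a b : R, a * b = b * a) ∧
    (∀ (R : Type) [Ring R] (C : Type) [CommRing C] [IsDomain C] [CharZero C] (d : ℕ)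
      (φ : R →+* Matrix (Fin d) (Fin d) C), ConditionP R → ∀ a b : R, φ (a * b) = φ (b * a)) := by
  refine ⟨?_, ?_, ?_, ?_⟩
  · intro F _ _ R _ _ _ _ hnil hP
    refine Pool.Agent.Helper572.PowProd.main (F := F) ?_ hP
    intro I hI x hx
    have h := hnil I hI
    rw [h] at hx
    exact (TwoSidedIdeal.mem_bot R).mp hx
  · intro R _ htf hP a b n hn
    obtain ⟨t, ht, h⟩ :=
      Pool.Agent.Helper572.PAdic.comm_divisible_closure htf (condP hP) a b n hn
    exact ⟨t, ht, by rw [h, natCast_zsmul]⟩
  · intro R _ htf hdiv hP a b
    apply sub_eq_zero.mp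
    apply hdiv
    intro n hn
    obtain ⟨t, ht⟩ := Pool.Agent.Helper572.PAdic.comm_divisible htf (condP hP) a b n hn
    exact ⟨t, by rw [ht, natCast_zsmul]⟩
  · intro R _ C _ _ _ d φ hP a b
    exact Pool.Agent.Helper572.PAdic.matrix_image φ (condP hP) a b

end Pool.Agent.Results.MP_5dc4fa_al.DivisibleCommutators
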