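import Mathlib
import Pool.Agent.Helper572.PowProdMain

set_option autoImplicit false

namespace Pool.Agent.Results.MP_5dc4fa_al.UncountableField

/-- `pow x n` is the `(n + 1)`-st power `x * x * ... * x` (with `n + 1` factors) in a ring
that need not have an identity element. -/
def pow {R : Type} [NonUnitalRing R] (x : R) (n : ℕ) : R := (fun z : R => z * x)^[n] x

/-- A two-sided ideal is nil if each of its elements is nilpotent. -/
def IsNil {R : Type} [NonUnitalRing R] (I : TwoSidedIdeal R) : Prop :=
  ∀ x ∈ I, ∃ n : ℕ, pow x n = 0

/-- The zero ideal is the only nil two-sided ideal. -/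
def HasNoNilIdeals (R : Type) [NonUnitalRing R] : Prop :=
  ∀ I : TwoSidedIdeal R, IsNil I → I = ⊥

/-- Condition (P): for all `x, y` there is an exponent `n + 1 ≥ 2` with
`(x y) ^ (n + 1) = x ^ (n + 1) y ^ (n + 1)`. -/
def ConditionP (R : Type) [NonUnitalRing R] : Prop :=
  ∀ x y : R, ∃ n : ℕ, 1 ≤ n ∧ pow (x * y) n = pow x n * pow y n

/-- Every (not necessarily unital) associative algebra over an uncountable field that has no
nonzero nil ideals and satisfies (P) is commutative. -/
theorem result (F : Type) [Field F] [Uncountable F] (R : Type) [NonUnitalRing R] [Module F R]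
    [IsScalarTower F R R] [SMulCommClass F R R]
    (hnil : HasNoNilIdeals R) (hP : ConditionP R) : ∀ x y : R, x * y = y * x := by
  refine Pool.Agent.Helper572.PowProd.main (F := F) ?_ hP
  intro I hI x hx
  have h := hnil I hI
  rw [h] at hx
  exact (TwoSidedIdeal.mem_bot R).mp hx

end Pool.Agent.Results.MP_5dc4fa_al.UncountableField
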